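import Mathlib

/-!
# Elementary symmetric sums over subsets of a finite set, with weights in `[0, 2]`
-/

set_option autoImplicit false

namespace Pool.Agent.X11.RG

open Finset

/-- the elementary symmetric sum -/
noncomputable def es (P : Finset ℕ) (w : ℕ → ℝ) (k : ℕ) : ℝ :=
  ∑ s ∈ P.powersetCard k, ∏ p ∈ s, w p

theorem reidx (P : Finset ℕ) (k : ℕ) (f : ℕ → Finset ℕ → ℝ) :
    ∑ s ∈ P.powersetCard (k + 1), ∑ p ∈ s, f p (s.erase p) =
      ∑ s ∈ P.powersetCard k, ∑ p ∈ P \ s, f p s := by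
  rw [Finset.sum_sigma', Finset.sum_sigma']
  refine Finset.sum_bij' (fun x _ => ⟨x.1.erase x.2, x.2⟩) (fun x _ => ⟨insert x.2 x.1, x.2⟩)
    ?_ ?_ ?_ ?_ ?_
  · rintro ⟨s, p⟩ h
    simp only [mem_sigma, mem_powersetCard, mem_sdiff] at h ⊢
    obtain ⟨⟨h1, h2⟩, h3⟩ := h
    refine ⟨⟨(erase_subset _ _).trans h1, ?_⟩, h1 h3, notMem_erase _ _⟩
    rw [card_erase_of_mem h3, h2]
    rfl
  · rintro ⟨s, p⟩ h
    simp only [mem_sigma, mem_powersetCard, mem_sdiff] at h ⊢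
    obtain ⟨⟨h1, h2⟩, h3, h4⟩ := h
    refine ⟨⟨insert_subset h3 h1, ?_⟩, mem_insert_self _ _⟩
    rw [card_insert_of_notMem h4, h2]
  · rintro ⟨s, p⟩ h
    simp only [mem_sigma, mem_powersetCard] at h
    simp only [Sigma.mk.injEq, heq_eq_eq, and_true]
    exact insert_erase h.2
  · rintro ⟨s, p⟩ h
    simp only [mem_sigma, mem_powersetCard, mem_sdiff] at h
    simp only [Sigma.mk.injEq, heq_eq_eq, and_true]
    exact erase_insert h.2.2
  · rintro ⟨s, p⟩ _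
    rfl

theorem es_rec (P : Finset ℕ) (w : ℕ → ℝ) (k : ℕ) :
    (k + 1 : ℝ) * es P w (k + 1) = ∑ s ∈ P.powersetCard k, (∏ q ∈ s, w q) * ∑ p ∈ P \ s, w p := by
  have h := reidx P k (fun p s => w p * ∏ q ∈ s, w q)
  have e1 : ∑ s ∈ P.powersetCard (k + 1), ∑ p ∈ s, w p * ∏ q ∈ s.erase p, w q =
      (k + 1 : ℝ) * es P w (k + 1) := by
    unfold es
    rw [mul_sum]
    refine sum_congr rfl fun s hs => ?_
    rw [mem_powersetCard] at hs
    have : ∀ p ∈ s, w p * ∏ q ∈ s.erase p, w q = ∏ q ∈ s, w q := fun p hp =>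
      mul_prod_erase s w hp
    rw [sum_congr rfl this, sum_const, hs.2, nsmul_eq_mul]
    push_cast
    ring
  rw [← e1, h]
  refine sum_congr rfl fun s _ => ?_
  rw [mul_sum]
  refine sum_congr rfl fun p _ => ?_
  ring

theorem es_nonneg {P : Finset ℕ} {w : ℕ → ℝ} (hw : ∀ p ∈ P, 0 ≤ w p) (k : ℕ) : 0 ≤ es P w k := by
  unfold es
  refine sum_nonneg fun s hs => prod_nonneg fun p hp => hw p ((mem_powersetCard.1 hs).1 hp)

theorem es_zero (P : Finset ℕ) (w : ℕ → ℝ) : es P w 0 = 1 := by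
  unfold es
  simp

theorem sum_sdiff_eq {P s : Finset ℕ} (w : ℕ → ℝ) (hs : s ⊆ P) :
    ∑ p ∈ P \ s, w p = ∑ p ∈ P, w p - ∑ p ∈ s, w p := by
  rw [← sum_sdiff hs]
  ring

/-- upper bound -/
theorem es_step_le {P : Finset ℕ} {w : ℕ → ℝ} (hw : ∀ p ∈ P, 0 ≤ w p) (k : ℕ) :
    (k + 1 : ℝ) * es P w (k + 1) ≤ (∑ p ∈ P, w p) * es P w k := by
  rw [es_rec, mul_comm, es, sum_mul]
  refine sum_le_sum fun s hs => ?_
  rw [mem_powersetCard] at hs
  apply mul_le_mul_of_nonneg_left _ (prod_nonneg fun p hp => hw p (hs.1 hp))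
  rw [sum_sdiff_eq w hs.1]
  have : 0 ≤ ∑ p ∈ s, w p := sum_nonneg fun p hp => hw p (hs.1 hp)
  linarith

theorem es_le {P : Finset ℕ} {w : ℕ → ℝ} (hw : ∀ p ∈ P, 0 ≤ w p) (k : ℕ) :
    (k.factorial : ℝ) * es P w k ≤ (∑ p ∈ P, w p) ^ k := by
  induction k with
  | zero => simp [es_zero]
  | succ k ih =>
    have h := es_step_le hw k
    have hW : 0 ≤ ∑ p ∈ P, w p := sum_nonneg hw
    rw [Nat.factorial_succ, pow_succ]
    push_cast
    calc ((k : ℝ) + 1) * (k.factorial : ℝ) * es P w (k + 1)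
        = (k.factorial : ℝ) * (((k : ℝ) + 1) * es P w (k + 1)) := by ring
      _ ≤ (k.factorial : ℝ) * ((∑ p ∈ P, w p) * es P w k) := by gcongr
      _ = ((k.factorial : ℝ) * es P w k) * (∑ p ∈ P, w p) := by ring
      _ ≤ (∑ p ∈ P, w p) ^ k * (∑ p ∈ P, w p) := by gcongr

/-- lower bound -/
theorem es_step_ge {P : Finset ℕ} {w : ℕ → ℝ} (hw : ∀ p ∈ P, 0 ≤ w p ∧ w p ≤ 2) (k : ℕ) :
    (∑ p ∈ P, w p - 2 * k) * es P w k ≤ (k + 1 : ℝ) * es P w (k + 1) := by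
  rw [es_rec, es, mul_sum]
  refine sum_le_sum fun s hs => ?_
  rw [mem_powersetCard] at hs
  rw [mul_comm]
  apply mul_le_mul_of_nonneg_left _ (prod_nonneg fun p hp => (hw p (hs.1 hp)).1)
  rw [sum_sdiff_eq w hs.1]
  have : ∑ p ∈ s, w p ≤ ∑ _p ∈ s, (2 : ℝ) := sum_le_sum fun p hp => (hw p (hs.1 hp)).2
  rw [sum_const, hs.2, nsmul_eq_mul] at this
  linarith

theorem es_ge {P : Finset ℕ} {w : ℕ → ℝ} (hw : ∀ p ∈ P, 0 ≤ w p ∧ w p ≤ 2) {n : ℕ}
    (hn : 2 * (n : ℝ) ≤ ∑ p ∈ P, w p) (k : ℕ) (hk : k ≤ n) :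
    (∑ p ∈ P, w p - 2 * n) ^ k ≤ (k.factorial : ℝ) * es P w k := by
  induction k with
  | zero => simp [es_zero]
  | succ k ih =>
    have h := es_step_ge hw k
    have ih' := ih (by omega)
    have hkn : (k : ℝ) ≤ n := by exact_mod_cast (by omega : k ≤ n)
    have h0 : 0 ≤ es P w k := es_nonneg (fun p hp => (hw p hp).1) k
    rw [Nat.factorial_succ, pow_succ]
    push_cast
    have hW0 : 0 ≤ ∑ p ∈ P, w p - 2 * (n : ℝ) := by linarith
    calc (∑ p ∈ P, w p - 2 * (n : ℝ)) ^ k * (∑ p ∈ P, w p - 2 * (n : ℝ))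
        ≤ ((k.factorial : ℝ) * es P w k) * (∑ p ∈ P, w p - 2 * (n : ℝ)) := by gcongr
      _ ≤ ((k.factorial : ℝ) * es P w k) * (∑ p ∈ P, w p - 2 * (k : ℝ)) := by
          apply mul_le_mul_of_nonneg_left _ (by positivity)
          linarith
      _ = (k.factorial : ℝ) * ((∑ p ∈ P, w p - 2 * (k : ℝ)) * es P w k) := by ring
      _ ≤ (k.factorial : ℝ) * (((k : ℝ) + 1) * es P w (k + 1)) := by gcongr
      _ = ((k : ℝ) + 1) * (k.factorial : ℝ) * es P w (k + 1) := by ring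

/-- a lower bound for the total weight from one for the symmetric sum -/
theorem total_ge {P : Finset ℕ} {w : ℕ → ℝ} (hw : ∀ p ∈ P, 0 ≤ w p) {k : ℕ} (hk : 3 ≤ k)
    (hkP : k ≤ P.card) (h : (1 / 2 : ℝ) * (P.card.choose k : ℝ) ≤ es P w k) :
    (3 / 4 : ℝ) * ((P.card : ℝ) - k) ≤ ∑ p ∈ P, w p := by
  have hW : 0 ≤ ∑ p ∈ P, w p := sum_nonneg hw
  have h1 := es_le hw k
  have hf : (0 : ℝ) < k.factorial := by exact_mod_cast Nat.factorial_pos k
  have h2 : ((P.card : ℝ) - k) ^ k ≤ (k.factorial : ℝ) * (P.card.choose k : ℝ) := by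
    have h3 := Nat.pow_sub_le_descFactorial P.card k
    rw [Nat.descFactorial_eq_factorial_mul_choose] at h3
    have h4 : ((P.card : ℝ) - k) ^ k ≤ ((P.card + 1 - k : ℕ) : ℝ) ^ k := by
      apply pow_le_pow_left₀
      · have : (k : ℝ) ≤ P.card := by exact_mod_cast hkP
        linarith
      · rw [Nat.cast_sub (by omega)]
        push_cast
        linarith
    refine h4.trans ?_
    exact_mod_cast h3
  have h5 : (1 / 2 : ℝ) * ((P.card : ℝ) - k) ^ k ≤ (∑ p ∈ P, w p) ^ k := by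
    calc (1 / 2 : ℝ) * ((P.card : ℝ) - k) ^ k
        ≤ (1 / 2 : ℝ) * ((k.factorial : ℝ) * (P.card.choose k : ℝ)) := by gcongr
      _ = (k.factorial : ℝ) * ((1 / 2 : ℝ) * (P.card.choose k : ℝ)) := by ring
      _ ≤ (k.factorial : ℝ) * es P w k := by gcongr
      _ ≤ _ := h1
  by_contra hcon
  push Not at hcon
  have h6 : (∑ p ∈ P, w p) ^ k < ((3 / 4 : ℝ) * ((P.card : ℝ) - k)) ^ k :=
    pow_lt_pow_left₀ hcon hW (by omega)
  rw [mul_pow] at h6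
  have h7 : (3 / 4 : ℝ) ^ k ≤ 1 / 2 := by
    calc (3 / 4 : ℝ) ^ k ≤ (3 / 4 : ℝ) ^ 3 :=
          pow_le_pow_of_le_one (by norm_num) (by norm_num) hk
      _ ≤ 1 / 2 := by norm_num
  have h8 : (0 : ℝ) ≤ ((P.card : ℝ) - k) ^ k := by
    apply pow_nonneg
    have : (k : ℝ) ≤ P.card := by exact_mod_cast hkP
    linarith
  nlinarith

end Pool.Agent.X11.RG
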