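import Pool.Agent.H38R2.CG.Defs
import Pool.Agent.X11.RG.Comb

/-!
# Ideals with class in a subgroup of the class group
-/

set_option autoImplicit false

namespace Pool.Agent.X11.RG

open Finset NumberField Pool.Agent.H38R2.CG
open scoped Classical

variable {K : Type} [Field K] [NumberField K]

/-- the ideals of norm `n` -/
noncomputable def UF (K : Type) [Field K] [NumberField K] (n : ℕ) :
    Finset (nonZeroDivisors (Ideal (𝓞 K))) :=
  ((Ideal.finite_setOfPred_absNorm_le₀ (S := 𝓞 K) n).subset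
    (t := {I : nonZeroDivisors (Ideal (𝓞 K)) | Ideal.absNorm (I : Ideal (𝓞 K)) = n})
    (fun _ hI => le_of_eq hI)).toFinset

theorem mem_UF {n : ℕ} {I : nonZeroDivisors (Ideal (𝓞 K))} :
    I ∈ UF K n ↔ Ideal.absNorm (I : Ideal (𝓞 K)) = n := by
  unfold UF
  rw [Set.Finite.mem_toFinset]
  rfl

/-- the number of ideals of norm `n` with class in `S` -/
noncomputable def NI (S : Set (ClassGroup (𝓞 K))) (n : ℕ) : ℕ :=
  ((UF K n).filter (fun I => ClassGroup.mk0 I ∈ S)).card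

/-- the number of ideals of norm `n` with class outside of `S` -/
noncomputable def NO (S : Set (ClassGroup (𝓞 K))) (n : ℕ) : ℕ :=
  ((UF K n).filter (fun I => ClassGroup.mk0 I ∉ S)).card

theorem NI_add (S : Set (ClassGroup (𝓞 K))) (n : ℕ) :
    NI S n + NO S n = (UF K n).card := by
  unfold NI NO
  exact card_filter_add_card_filter_not (s := UF K n) (fun I => ClassGroup.mk0 I ∈ S)

theorem NI_mul (H : Subgroup (ClassGroup (𝓞 K))) {p n : ℕ} (hp : p.Prime) (hn : ¬ p ∣ n) :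
    NI (H : Set (ClassGroup (𝓞 K))) p * NI (H : Set (ClassGroup (𝓞 K))) n ≤
      NI (H : Set (ClassGroup (𝓞 K))) (p * n) := by
  unfold NI
  rw [← card_product]
  refine card_le_card_of_injOn (fun x => x.1 * x.2) ?_ ?_
  · rintro ⟨Q, J⟩ hx
    rw [mem_coe, mem_product, mem_filter, mem_filter, mem_UF, mem_UF] at hx
    obtain ⟨⟨h1, h2⟩, h3, h4⟩ := hx
    rw [mem_coe, mem_filter, mem_UF]
    refine ⟨?_, ?_⟩
    · show Ideal.absNorm ((Q : Ideal (𝓞 K)) * (J : Ideal (𝓞 K))) = p * n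
      rw [map_mul, h1, h3]
    · show ClassGroup.mk0 (Q * J) ∈ (H : Set (ClassGroup (𝓞 K)))
      rw [map_mul]
      exact H.mul_mem h2 h4
  · rintro ⟨Q, J⟩ hx ⟨Q', J'⟩ hx' heq
    rw [mem_coe, mem_product, mem_filter, mem_filter, mem_UF, mem_UF] at hx hx'
    obtain ⟨⟨h1, -⟩, h3, -⟩ := hx
    obtain ⟨⟨h1', -⟩, h3', -⟩ := hx'
    have heq2 : Q * J = Q' * J' := heq
    have hmul : (Q : Ideal (𝓞 K)) * J = (Q' : Ideal (𝓞 K)) * J' := congrArg Subtype.val heq2
    have hQ0 : (Q : Ideal (𝓞 K)) ≠ 0 := nonZeroDivisors.coe_ne_zero Q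
    have hQp : (Q : Ideal (𝓞 K)).IsPrime := by
      apply Ideal.isPrime_of_irreducible_absNorm
      simp only at h1
      rw [h1]
      exact hp
    have hQ : Prime (Q : Ideal (𝓞 K)) := Ideal.prime_of_isPrime hQ0 hQp
    have hdvd : (Q : Ideal (𝓞 K)) ∣ (Q' : Ideal (𝓞 K)) * J' := by
      rw [← hmul]
      exact dvd_mul_right _ _
    rcases hQ.dvd_or_dvd hdvd with h | h
    · obtain ⟨R, hR⟩ := h
      have h5 := congrArg Ideal.absNorm hR
      simp only at h1 h1'
      rw [map_mul, h1, h1'] at h5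
      have h6 : Ideal.absNorm R = 1 := by
        have := Nat.eq_of_mul_eq_mul_left hp.pos (h5.symm.trans (mul_one p).symm)
        exact this
      rw [Ideal.absNorm_eq_one_iff] at h6
      rw [h6, Ideal.mul_top] at hR
      have hQQ : Q' = Q := Subtype.ext hR
      subst hQQ
      have hJJ : J = J' := mul_left_cancel heq2
      rw [hJJ]
    · exfalso
      apply hn
      have h5 := map_dvd Ideal.absNorm h
      simp only at h1 h3'
      rwa [h1, h3'] at h5

theorem NI_one (H : Subgroup (ClassGroup (𝓞 K))) : 1 ≤ NI (H : Set (ClassGroup (𝓞 K))) 1 := by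
  unfold NI
  rw [Nat.one_le_iff_ne_zero, ← Nat.pos_iff_ne_zero, card_pos]
  refine ⟨1, ?_⟩
  rw [mem_filter, mem_UF]
  refine ⟨?_, ?_⟩
  · show Ideal.absNorm (1 : Ideal (𝓞 K)) = 1
    exact map_one _
  · rw [map_one]
    exact H.one_mem

theorem NI_prod (H : Subgroup (ClassGroup (𝓞 K))) (s : Finset ℕ) (hs : ∀ p ∈ s, p.Prime) :
    ∏ p ∈ s, NI (H : Set (ClassGroup (𝓞 K))) p ≤ NI (H : Set (ClassGroup (𝓞 K))) (prodS s) := by
  induction s using Finset.induction_on with
  | empty =>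
    unfold prodS
    rw [prod_empty, prod_empty]
    exact NI_one H
  | insert p s hps ih =>
    have hp : p.Prime := hs p (mem_insert_self p s)
    have hs' : ∀ q ∈ s, q.Prime := fun q hq => hs q (mem_insert_of_mem hq)
    have e : prodS (insert p s) = p * prodS s := by
      unfold prodS
      rw [prod_insert hps]
    have hnd : ¬ p ∣ prodS s := by
      intro h
      unfold prodS at h
      obtain ⟨q, hq, hpq⟩ := (Prime.dvd_finsetProd_iff hp.prime _).mp h
      rw [(Nat.prime_dvd_prime_iff_eq hp (hs' q hq)).mp hpq] at hps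
      exact hps hq
    rw [prod_insert hps, e]
    exact (Nat.mul_le_mul_left _ (ih hs')).trans (NI_mul H hp hnd)

/-- the number of prime ideals with norm a prime number at most `B` and class outside of `H` -/
theorem out_ge (H : Subgroup (ClassGroup (𝓞 K))) (P : Finset ℕ) (hP : ∀ p ∈ P, p.Prime) (B : ℝ)
    (hB : ∀ p ∈ P, (p : ℝ) ≤ B) :
    ∑ p ∈ P, NO (H : Set (ClassGroup (𝓞 K))) p ≤
      Nat.card {Q : nonZeroDivisors (Ideal (𝓞 K)) //
        (Ideal.absNorm (Q : Ideal (𝓞 K))).Prime ∧ (Ideal.absNorm (Q : Ideal (𝓞 K)) : ℝ) ≤ B ∧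
        ClassGroup.mk0 Q ∉ H} := by
  have hfin : {Q : nonZeroDivisors (Ideal (𝓞 K)) |
        (Ideal.absNorm (Q : Ideal (𝓞 K))).Prime ∧ (Ideal.absNorm (Q : Ideal (𝓞 K)) : ℝ) ≤ B ∧
        ClassGroup.mk0 Q ∉ H}.Finite := by
    refine (Ideal.finite_setOfPred_absNorm_le₀ (S := 𝓞 K) ⌊B⌋₊).subset ?_
    rintro Q ⟨-, h, -⟩
    exact Nat.le_floor h
  have e1 : Nat.card {Q : nonZeroDivisors (Ideal (𝓞 K)) //
        (Ideal.absNorm (Q : Ideal (𝓞 K))).Prime ∧ (Ideal.absNorm (Q : Ideal (𝓞 K)) : ℝ) ≤ B ∧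
        ClassGroup.mk0 Q ∉ H} = hfin.toFinset.card := Nat.card_eq_card_finite_toFinset hfin
  rw [e1]
  have e2 : ∑ p ∈ P, NO (H : Set (ClassGroup (𝓞 K))) p =
      (P.biUnion (fun p => (UF K p).filter
        (fun I => ClassGroup.mk0 I ∉ (H : Set (ClassGroup (𝓞 K)))))).card := by
    rw [card_biUnion]
    · rfl
    · intro p _ q _ hpq
      rw [Function.onFun, disjoint_left]
      intro I h1 h2
      rw [mem_filter, mem_UF] at h1 h2
      exact hpq (h1.1.symm.trans h2.1)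
  rw [e2]
  apply card_le_card
  intro I hI
  rw [mem_biUnion] at hI
  obtain ⟨p, hp, hI⟩ := hI
  rw [mem_filter, mem_UF] at hI
  rw [Set.Finite.mem_toFinset]
  refine ⟨?_, ?_, hI.2⟩
  · rw [hI.1]
    exact hP p hp
  · rw [hI.1]
    exact hB p hp

end Pool.Agent.X11.RG
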