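import Pool.Agent.H38R2.CG3.Link
import Pool.Agent.X11.RG.Cls

/-!
# Few prime ideals with class in a subgroup
-/

set_option autoImplicit false

namespace Pool.Agent.X11.RG

open Finset NumberField Pool.Agent.H38R2.CG Pool.Agent.H38R2.CG3
open scoped Classical

variable {K : Type} [Field K] [NumberField K]

theorem card_cls (n : ℕ) (C : ClassGroup (𝓞 K)) :
    Nat.card {I : nonZeroDivisors (Ideal (𝓞 K)) //
      Ideal.absNorm (I : Ideal (𝓞 K)) = n ∧ ClassGroup.mk0 I = C} =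
    ((UF K n).filter (fun I => ClassGroup.mk0 I = C)).card := by
  rw [← Fintype.card_coe, ← Nat.card_eq_fintype_card]
  refine Nat.card_congr (Equiv.subtypeEquivRight fun I => ?_)
  rw [mem_filter, mem_UF]

theorem NI_eq (S : Set (ClassGroup (𝓞 K))) (n : ℕ) :
    NI S n = ∑ C ∈ (Finset.univ : Finset (ClassGroup (𝓞 K))).filter (fun C => C ∈ S),
      ((UF K n).filter (fun I => ClassGroup.mk0 I = C)).card := by
  unfold NI
  rw [card_eq_sum_card_fiberwise (f := fun I => ClassGroup.mk0 I)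
    (t := (Finset.univ : Finset (ClassGroup (𝓞 K))).filter (fun C => C ∈ S))]
  · refine sum_congr rfl fun C hC => ?_
    rw [mem_filter] at hC
    congr 1
    ext I
    rw [mem_filter, mem_filter, mem_filter]
    constructor
    · rintro ⟨⟨h1, -⟩, h3⟩
      exact ⟨h1, h3⟩
    · rintro ⟨h1, h3⟩
      refine ⟨⟨h1, ?_⟩, h3⟩
      rw [h3]
      exact hC.2
  · intro I hI
    rw [mem_coe, mem_filter] at hI
    rw [mem_coe, mem_filter]
    exact ⟨mem_univ _, hI.2⟩

theorem UF_eq (n : ℕ) : (UF K n).card = ∑ C : ClassGroup (𝓞 K),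
    ((UF K n).filter (fun I => ClassGroup.mk0 I = C)).card :=
  card_eq_sum_card_fiberwise (fun _ _ => mem_coe.2 (mem_univ _))

theorem cnt_eq2 (y k : ℕ) (C : ClassGroup (𝓞 K)) :
    cnt K y k C = ∑ s ∈ (PP y).powersetCard k,
      ((UF K (prodS s)).filter (fun I => ClassGroup.mk0 I = C)).card := by
  unfold cnt
  exact sum_congr rfl fun s _ => card_cls _ _

/-- the share of the family in a subgroup -/
theorem share (H : Subgroup (ClassGroup (𝓞 K))) (y k : ℕ) {ε : ℝ} (h : Equi K y k ε) :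
    (∑ s ∈ (PP y).powersetCard k, (NI (H : Set (ClassGroup (𝓞 K))) (prodS s) : ℝ)) ≤
      (1 / (H.index : ℝ) + √(ε / H.index)) *
        ∑ s ∈ (PP y).powersetCard k, ((UF K (prodS s)).card : ℝ) := by
  obtain ⟨hpos, hle⟩ := h
  obtain ⟨T, hT⟩ : ∃ T : ℕ, T = ∑ C : ClassGroup (𝓞 K), cnt K y k C := ⟨_, rfl⟩
  rw [← hT] at hpos hle
  have hTr : (0 : ℝ) < T := by exact_mod_cast hpos
  obtain ⟨F, hF⟩ : ∃ F : Finset (ClassGroup (𝓞 K)),
      F = (Finset.univ : Finset (ClassGroup (𝓞 K))).filter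
        (fun C => C ∈ (H : Set (ClassGroup (𝓞 K)))) := ⟨_, rfl⟩
  have e1 : ∑ s ∈ (PP y).powersetCard k, ((UF K (prodS s)).card : ℝ) = T := by
    rw [hT]
    push_cast
    simp only [cnt_eq2]
    push_cast
    rw [sum_comm]
    refine sum_congr rfl fun s _ => ?_
    exact_mod_cast UF_eq (K := K) (prodS s)
  have e2 : ∑ s ∈ (PP y).powersetCard k, (NI (H : Set (ClassGroup (𝓞 K))) (prodS s) : ℝ) =
      ∑ C ∈ F, (cnt K y k C : ℝ) := by
    simp only [cnt_eq2]
    push_cast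
    rw [sum_comm]
    refine sum_congr rfl fun s _ => ?_
    rw [hF]
    exact_mod_cast NI_eq (H : Set (ClassGroup (𝓞 K))) (prodS s)
  obtain ⟨h, hh⟩ : ∃ h : ℝ, h = (Nat.card (ClassGroup (𝓞 K)) : ℝ) := ⟨_, rfl⟩
  rw [← hh] at hle
  have hh0 : 0 < h := by
    rw [hh]
    exact_mod_cast Nat.card_pos
  have hcard : (F.card : ℝ) * H.index = h := by
    have e3 : F.card = Nat.card H := by
      rw [hF, ← Fintype.card_coe, ← Nat.card_eq_fintype_card]
      refine Nat.card_congr (Equiv.subtypeEquivRight fun C => ?_)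
      rw [mem_filter]
      exact ⟨fun h => h.2, fun h => ⟨mem_univ _, h⟩⟩
    have e4 := Subgroup.card_mul_index H
    rw [← e3] at e4
    rw [hh]
    exact_mod_cast e4
  have hidx : (0 : ℝ) < H.index := by
    have : H.index ≠ 0 := Subgroup.FiniteIndex.index_ne_zero
    exact_mod_cast Nat.pos_of_ne_zero this
  have hFh : (F.card : ℝ) / h = 1 / H.index := by
    rw [← hcard]
    have : (F.card : ℝ) ≠ 0 := by
      intro h0
      rw [h0, zero_mul] at hcard
      linarith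
    field_simp
  rw [div_le_iff₀ hh0] at hle
  obtain ⟨f, hf⟩ : ∃ f : ClassGroup (𝓞 K) → ℝ, ∀ C, f C = (cnt K y k C : ℝ) / T - 1 / h :=
    ⟨_, fun _ => rfl⟩
  have hle2 : ∑ C : ClassGroup (𝓞 K), f C ^ 2 ≤ ε / h := by
    have : ε * (1 / h) ^ 2 * h = ε / h := by field_simp
    rw [← this]
    refine le_trans (le_of_eq ?_) hle
    exact sum_congr rfl fun C _ => by rw [hf C]
  have hcs : ∑ C ∈ F, f C ≤ √(ε / H.index) := by
    apply Real.le_sqrt_of_sq_le
    calc (∑ C ∈ F, f C) ^ 2 ≤ F.card * ∑ C ∈ F, f C ^ 2 := sq_sum_le_card_mul_sum_sq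
      _ ≤ F.card * ∑ C : ClassGroup (𝓞 K), f C ^ 2 := by
          apply mul_le_mul_of_nonneg_left _ (Nat.cast_nonneg _)
          exact sum_le_sum_of_subset_of_nonneg (subset_univ _) fun C _ _ => sq_nonneg _
      _ ≤ F.card * (ε / h) := by gcongr
      _ = ε * ((F.card : ℝ) / h) := by ring
      _ = ε / H.index := by rw [hFh]; ring
  rw [e1, e2]
  have e5 : ∑ C ∈ F, (cnt K y k C : ℝ) = (∑ C ∈ F, f C + (F.card : ℝ) / h) * T := by
    have e6 : ∑ C ∈ F, f C = (∑ C ∈ F, (cnt K y k C : ℝ)) / T - (F.card : ℝ) / h := by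
      rw [sum_div]
      have e7 : ∀ C ∈ F, f C = (cnt K y k C : ℝ) / T - 1 / h := fun C _ => hf C
      rw [sum_congr rfl e7, sum_sub_distrib, sum_const, nsmul_eq_mul]
      ring
    rw [e6]
    field_simp
    ring
  rw [e5, hFh]
  apply mul_le_mul_of_nonneg_right _ hTr.le
  linarith

/-- the number of ideals, in terms of the primes -/
theorem UF_prod (hN1 : P_N1) {D : ℕ} (hD : IsFund D) (h2 : Module.finrank ℚ K = 2)
    (hK : NumberField.discr K = (D : ℤ)) (s : Finset ℕ) (hs : ∀ p ∈ s, p.Prime ∧ p ≠ 2) :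
    ((UF K (prodS s)).card : ℝ) = ∏ p ∈ s, ((UF K p).card : ℝ) ∧
    ((UF K (prodS s)).card : ℝ) = ∏ p ∈ s, (1 + (chi D p : ℝ)) := by
  have key : ∀ t : Finset ℕ, (∀ p ∈ t, p.Prime ∧ p ≠ 2) →
      ((UF K (prodS t)).card : ℤ) = ∏ p ∈ t, (1 + chi D p) := by
    intro t ht
    rw [← hN1 K D hD h2 hK t ht]
    have hpos : 0 < prodS t := prod_pos fun p hp => (ht p hp).1.pos
    have e : (UF K (prodS t)).card = Nat.card {I : Ideal (𝓞 K) // Ideal.absNorm I = prodS t} := by
      rw [← Fintype.card_coe, ← Nat.card_eq_fintype_card]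
      refine Nat.card_congr ⟨fun I => ⟨I.1.1, mem_UF.1 I.2⟩, fun I => ⟨⟨I.1, ?_⟩, ?_⟩, ?_, ?_⟩
      · rw [← Ideal.absNorm_ne_zero_iff_mem_nonZeroDivisors, I.2]
        exact hpos.ne'
      · rw [mem_UF]
        exact I.2
      · intro I; rfl
      · intro I; rfl
    rw [e]
  have k1 : ∀ p ∈ s, ((UF K p).card : ℤ) = 1 + chi D p := by
    intro p hp
    have h := key {p} (fun q hq => by rw [mem_singleton] at hq; rw [hq]; exact hs p hp)
    unfold prodS at h
    rwa [prod_singleton, prod_singleton] at h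
  have k2 := key s hs
  constructor
  · have : ((UF K (prodS s)).card : ℤ) = ∏ p ∈ s, ((UF K p).card : ℤ) := by
      rw [k2]
      exact prod_congr rfl fun p hp => (k1 p hp).symm
    exact_mod_cast this
  · have h3 : (((UF K (prodS s)).card : ℤ) : ℝ) = ((∏ p ∈ s, (1 + chi D p) : ℤ) : ℝ) := by rw [k2]
    push_cast at h3
    exact h3

theorem UF_le (hN1 : P_N1) {D : ℕ} (hD : IsFund D) (h2 : Module.finrank ℚ K = 2)
    (hK : NumberField.discr K = (D : ℤ)) {p : ℕ} (hp : p.Prime) (hp2 : p ≠ 2) :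
    (UF K p).card ≤ 2 := by
  have h := (UF_prod hN1 hD h2 hK {p}
    (fun q hq => by rw [mem_singleton] at hq; rw [hq]; exact ⟨hp, hp2⟩)).2
  unfold prodS at h
  rw [prod_singleton, prod_singleton] at h
  have hchi : chi D p ≤ 1 := by
    unfold chi
    have hv : padicValNat 2 p = 0 := by
      rw [padicValNat.eq_zero_iff]
      right
      right
      intro h3
      exact hp2 ((Nat.prime_dvd_prime_iff_eq Nat.prime_two hp).1 h3).symm
    rw [hv, pow_zero, one_mul]
    rcases jacobiSym.trichotomy (D : ℤ) (p / 2 ^ 0) with h3 | h3 | h3 <;> rw [h3] <;> norm_num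
  have h4 : (chi D p : ℝ) ≤ 1 := by exact_mod_cast hchi
  have h5 : ((UF K p).card : ℝ) ≤ 2 := by
    rw [h]
    linarith
  exact_mod_cast h5

end Pool.Agent.X11.RG
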