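import Mathlib

/-!
# Inequalities between real numbers
-/

set_option autoImplicit false

namespace Pool.Agent.X11.RG

open Filter

theorem real_part {W U q : ℝ} {k : ℕ} (hk : 1 ≤ k) (hW : 0 ≤ W) (hq : 0 ≤ q)
    (h : 2 * (k : ℝ) ≤ U → (U - 2 * k) ^ k ≤ q * W ^ k) :
    U ≤ 2 * k + q ^ ((k : ℝ)⁻¹) * W := by
  have hr : 0 ≤ q ^ ((k : ℝ)⁻¹) := Real.rpow_nonneg hq _
  rcases le_or_gt (2 * (k : ℝ)) U with h1 | h1
  · have h2 := h h1
    have h3 : (q ^ ((k : ℝ)⁻¹)) ^ k = q := Real.rpow_inv_natCast_pow hq (by omega)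
    have h4 : (U - 2 * k) ^ k ≤ (q ^ ((k : ℝ)⁻¹) * W) ^ k := by
      rw [mul_pow, h3]
      exact h2
    have h5 : U - 2 * k ≤ q ^ ((k : ℝ)⁻¹) * W :=
      (pow_le_pow_iff_left₀ (by linarith) (by positivity) (by omega)).1 h4
    linarith
  · have : 0 ≤ q ^ ((k : ℝ)⁻¹) * W := by positivity
    linarith

theorem q_le {m : ℝ} (hm : 2 ≤ m) : 1 / m + √((1 / 32) / m) ≤ (9 / 10) / √m := by
  have hm0 : 0 < m := by linarith
  have hs : 0 < √m := Real.sqrt_pos.2 hm0
  have hss : √m * √m = m := Real.mul_self_sqrt hm0.le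
  have h1 : √((1 / 32) / m) = √(1 / 32) / √m := Real.sqrt_div (by norm_num) m
  have h2 : √(1 / 32 : ℝ) ≤ 18 / 100 := by
    rw [Real.sqrt_le_left (by norm_num)]
    norm_num
  have h3 : (1 : ℝ) / m = 1 / √m / √m := by
    rw [div_div, hss]
  have h4 : 1 / √m ≤ 71 / 100 := by
    rw [div_le_iff₀ hs]
    have h5 : (100 / 71 : ℝ) ≤ √m := by
      apply Real.le_sqrt_of_sq_le
      norm_num
      linarith
    linarith
  rw [h1, h3, ← add_div]
  apply div_le_div_of_nonneg_right _ hs.le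
  linarith

theorem root_le {m : ℝ} (hm : 2 ≤ m) {k : ℕ} (hk : 1 ≤ k) {q : ℝ} (hq0 : 0 ≤ q)
    (hq : q ≤ (9 / 10) / √m) :
    min (2 * (k : ℝ)) (Real.log m) / (4 * k) ≤ 1 - q ^ ((k : ℝ)⁻¹) := by
  have hm0 : 0 < m := by linarith
  have hkr : (0 : ℝ) < k := by exact_mod_cast hk
  have hlm : 0 < Real.log m := Real.log_pos (by linarith)
  have hs : 0 < √m := Real.sqrt_pos.2 hm0
  obtain ⟨x, hx⟩ : ∃ x, x = Real.log m / (2 * k) := ⟨_, rfl⟩
  have hx0 : 0 < x := by rw [hx]; positivity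
  have h1 : q ≤ Real.exp (-(Real.log m / 2)) := by
    have h2 : Real.exp (-(Real.log m / 2)) = 1 / √m := by
      rw [Real.exp_neg, one_div, Real.sqrt_eq_rpow, Real.rpow_def_of_pos hm0]
      congr 2
      ring
    rw [h2]
    refine hq.trans ?_
    apply div_le_div_of_nonneg_right (by norm_num) hs.le
  have h3 : q ^ ((k : ℝ)⁻¹) ≤ Real.exp (-x) := by
    calc q ^ ((k : ℝ)⁻¹) ≤ (Real.exp (-(Real.log m / 2))) ^ ((k : ℝ)⁻¹) :=
          Real.rpow_le_rpow hq0 h1 (by positivity)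
      _ = Real.exp (-x) := by
          rw [← Real.exp_mul, hx]
          congr 1
          field_simp
  have h4 : Real.exp (-x) ≤ 1 / (1 + x) := by
    rw [Real.exp_neg, ← one_div]
    apply one_div_le_one_div_of_le (by linarith)
    linarith [Real.add_one_le_exp x]
  have h5 : min (2 * (k : ℝ)) (Real.log m) / (4 * k) = min 1 x / 2 := by
    rw [hx]
    rcases le_total (2 * (k : ℝ)) (Real.log m) with h | h
    · rw [min_eq_left h, min_eq_left]
      · field_simp
        norm_num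
      · rw [le_div_iff₀ (by positivity)]
        linarith
    · rw [min_eq_right h, min_eq_right]
      · field_simp
        norm_num
      · rw [div_le_iff₀ (by positivity)]
        linarith
  rw [h5]
  have h6 : min 1 x / 2 ≤ 1 - 1 / (1 + x) := by
    have e : 1 - 1 / (1 + x) = x / (1 + x) := by
      field_simp
      ring
    rw [e, div_le_div_iff₀ (by norm_num) (by linarith)]
    rcases le_total 1 x with h | h
    · rw [min_eq_left h]
      linarith
    · rw [min_eq_right h]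
      nlinarith
  linarith

/-- from the inequality for the primes in the subgroup to the primes outside -/
theorem out_bound {W U P m : ℝ} {k : ℕ} (hk : 3 ≤ k) (hm : 2 ≤ m)
    (hW : (3 / 4 : ℝ) * (P - k) ≤ W) (hP : 100 * (k : ℝ) ^ 2 ≤ P)
    (h : 2 * (k : ℝ) ≤ U → (U - 2 * k) ^ k ≤ (1 / m + √((1 / 32) / m)) * W ^ k) :
    P * min (2 * (k : ℝ)) (Real.log m) / (7 * k) ≤ W - U := by
  have hkr : (3 : ℝ) ≤ k := by exact_mod_cast hk
  have hm0 : 0 < m := by linarith
  have hk2 : (k : ℝ) ≤ (k : ℝ) ^ 2 := by nlinarith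
  have hP0 : 0 < P := by nlinarith
  have hWP : (74 / 100 : ℝ) * P ≤ W := by nlinarith
  have hW0 : 0 ≤ W := by nlinarith
  have hq0 : 0 ≤ 1 / m + √((1 / 32) / m) := by positivity
  have h1 := real_part (by omega) hW0 hq0 h
  have h2 := root_le hm (k := k) (by omega) hq0 (q_le hm)
  obtain ⟨M, hM⟩ : ∃ M, M = min (2 * (k : ℝ)) (Real.log m) := ⟨_, rfl⟩
  rw [← hM] at h2 ⊢
  have hM0 : (69 / 100 : ℝ) ≤ M := by
    rw [hM]
    apply le_min
    · linarith
    · have := Real.log_two_gt_d9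
      have h3 : Real.log 2 ≤ Real.log m := Real.log_le_log (by norm_num) hm
      linarith
  have h3 : W * (M / (4 * k)) - 2 * k ≤ W - U := by
    have h4 : W * (M / (4 * k)) ≤ W * (1 - (1 / m + √((1 / 32) / m)) ^ ((k : ℝ)⁻¹)) :=
      mul_le_mul_of_nonneg_left h2 hW0
    nlinarith
  refine le_trans ?_ h3
  have hk0 : (0 : ℝ) < k := by linarith
  have h5 : 2 * (k : ℝ) ≤ P * M / (34 * k) := by
    rw [le_div_iff₀ (by positivity)]
    nlinarith
  have h6 : (74 / 100 : ℝ) * P * (M / (4 * k)) ≤ W * (M / (4 * k)) := by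
    apply mul_le_mul_of_nonneg_right hWP
    positivity
  have h7 : P * M / (7 * k) + P * M / (34 * k) ≤ (74 / 100 : ℝ) * P * (M / (4 * k)) := by
    have e1 : P * M / (7 * k) + P * M / (34 * k) = (1 / 7 + 1 / 34) * (P * M / k) := by
      field_simp
    have e2 : (74 / 100 : ℝ) * P * (M / (4 * k)) = (74 / 400) * (P * M / k) := by
      field_simp
      norm_num
    rw [e1, e2]
    apply mul_le_mul_of_nonneg_right (by norm_num)
    positivity
  linarith

end Pool.Agent.X11.RG
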