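import Pool.Agent.H38R2.CG3.Par
import Pool.Agent.H38R2.CG2.NB
import Pool.Agent.H38R2.CG.NB
import Pool.Agent.X11.RG.Real

/-!
# Size of the parameters
-/

set_option autoImplicit false

namespace Pool.Agent.X11.RG

open Finset Filter NumberField Pool.Agent.H38R2.CG Pool.Agent.H38R2.CG2 Pool.Agent.H38R2.CG3
open scoped Classical

theorem ev_L2 (a : ℝ) (ha : 2 < a) : ∀ᶠ L : ℝ in atTop,
    1000 ≤ L ∧ 20 ≤ L ^ a ∧ a * Real.log L ≤ (1 - th a) * L ∧ a * Real.log L * 4 ≤ L ∧
    (L + 1) ^ (a - 1) ≤ (11 / 10) * L ^ (a - 1) := by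
  have hth := (NBh.th_bounds ha).2.2.1
  have e1 : ∀ᶠ L : ℝ in atTop, 1000 ≤ L := eventually_ge_atTop 1000
  have e2 : ∀ᶠ L : ℝ in atTop, 20 ≤ L ^ a :=
    (tendsto_rpow_atTop (by linarith)).eventually_ge_atTop _
  have e3 : ∀ᶠ L : ℝ in atTop, ‖Real.log L‖ ≤ ((1 - th a) / a) * ‖L‖ :=
    Real.isLittleO_log_id_atTop.bound (div_pos (by linarith) (by linarith))
  have e4 : ∀ᶠ L : ℝ in atTop, ‖Real.log L‖ ≤ (1 / (4 * a)) * ‖L‖ :=
    Real.isLittleO_log_id_atTop.bound (div_pos (by linarith) (by linarith))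
  have e5 : ∀ᶠ L : ℝ in atTop, (1 + L⁻¹) ^ (a - 1) ≤ 11 / 10 := by
    have h1 : Tendsto (fun L : ℝ => 1 + L⁻¹) atTop (nhds (1 + 0)) :=
      tendsto_const_nhds.add tendsto_inv_atTop_zero
    rw [add_zero] at h1
    have h2 : Tendsto (fun L : ℝ => (1 + L⁻¹) ^ (a - 1)) atTop (nhds ((1 : ℝ) ^ (a - 1))) :=
      h1.rpow_const (Or.inl one_ne_zero)
    rw [Real.one_rpow] at h2
    exact (h2.eventually (gt_mem_nhds (by norm_num : (1 : ℝ) < 11 / 10))).mono fun _ h => h.le
  filter_upwards [e1, e2, e3, e4, e5] with L h1 h2 h3 h4 h5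
  have hL0 : 0 < L := by linarith
  have hlog0 : 0 ≤ Real.log L := Real.log_nonneg (by linarith)
  rw [Real.norm_eq_abs, Real.norm_eq_abs, abs_of_nonneg hlog0, abs_of_pos hL0] at h3 h4
  refine ⟨h1, h2, ?_, ?_, ?_⟩
  · rw [div_mul_eq_mul_div, le_div_iff₀ (by linarith)] at h3
    linarith
  · rw [div_mul_eq_mul_div, le_div_iff₀ (by linarith)] at h4
    linarith
  · have e : L + 1 = L * (1 + L⁻¹) := by
      field_simp
    rw [e, Real.mul_rpow hL0.le (by positivity)]
    have : 0 ≤ L ^ (a - 1) := by positivity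
    nlinarith

theorem par (a : ℝ) (ha : 2 < a) : ∃ X1 : ℕ, ∀ X : ℕ, X1 ≤ X →
    3 ≤ kA a X ∧ 100 * (kA a X : ℝ) ^ 2 ≤ (PP (yA a X)).card ∧
    ∀ d : ℝ, (X : ℝ) / 4 ≤ d → d ≤ 2 * X → ∀ m : ℝ, 1 ≤ m →
      2 ≤ Real.log d ∧
      (Real.log d) ^ (a - 1) * min (Real.log m) (Real.log d / Real.log (Real.log d)) / (50 * a) ≤
        (PP (yA a X)).card * min (2 * (kA a X : ℝ)) (Real.log m) / (7 * kA a X) := by
  obtain ⟨X2, hX2⟩ := T2_NB T_NB a ha 1 one_pos
  obtain ⟨-, y0, hy0⟩ := T_NB
  have ht : Tendsto (fun X : ℕ => Real.log (X : ℝ)) atTop atTop :=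
    Real.tendsto_log_atTop.comp tendsto_natCast_atTop_atTop
  obtain ⟨X3, hX3⟩ := Filter.eventually_atTop.1 (ht.eventually (ev_L2 a ha))
  have hyA : Tendsto (yA a) atTop atTop := by
    unfold yA
    apply tendsto_nat_floor_atTop.comp
    apply Tendsto.atTop_div_const (by norm_num)
    exact (tendsto_rpow_atTop (by linarith)).comp ht
  obtain ⟨X4, hX4⟩ := (tendsto_atTop.1 hyA y0).exists_forall_of_atTop
  have hpow : Tendsto (fun L : ℝ => L ^ ((a - 2) / 2)) atTop atTop :=
    tendsto_rpow_atTop (by linarith)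
  obtain ⟨X5, hX5⟩ := Filter.eventually_atTop.1 (ht.eventually (hpow.eventually_ge_atTop 100))
  refine ⟨max (max X2 X3) (max X4 X5), fun X hX => ?_⟩
  have hXa : X2 ≤ X := (le_max_left _ _).trans ((le_max_left _ _).trans hX)
  have hXb : X3 ≤ X := (le_max_right _ _).trans ((le_max_left _ _).trans hX)
  have hXc : X4 ≤ X := (le_max_left _ _).trans ((le_max_right _ _).trans hX)
  have hXd : X5 ≤ X := (le_max_right _ _).trans ((le_max_right _ _).trans hX)
  obtain ⟨n1, -, -, -, n5, -, -, -⟩ := hX2 X hXa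
  obtain ⟨l1, l2, l3, l4, l5⟩ := hX3 X hXb
  have hy := hX4 X hXc
  have hp := hX5 X hXd
  obtain ⟨hP1, -⟩ := hy0 _ hy
  have hth := NBh.th_bounds ha
  obtain ⟨L, hL⟩ : ∃ L, L = Real.log (X : ℝ) := ⟨_, rfl⟩
  rw [← hL] at n1 n5 l1 l2 l3 l4 l5 hp
  obtain ⟨P, hPd⟩ : ∃ P : ℝ, P = ((PP (yA a X)).card : ℝ) := ⟨_, rfl⟩
  have hPA : (PA a X).card = (PP (yA a X)).card := rfl
  rw [hPA, ← hPd] at n1
  rw [← hPd] at hP1 ⊢
  obtain ⟨k, hk⟩ : ∃ k : ℝ, k = (kA a X : ℝ) := ⟨_, rfl⟩
  rw [← hk] at n1 n5 ⊢
  have hL0 : 0 < L := by linarith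
  have hlL : 0 < Real.log L := Real.log_pos (by linarith)
  -- k is large
  have hk3 : 3 ≤ k := by
    have h1 : (3 : ℝ) ≤ √L := by
      apply Real.le_sqrt_of_sq_le
      linarith
    linarith
  have hk3' : 3 ≤ kA a X := by
    rw [hk] at hk3
    exact_mod_cast hk3
  have hk0 : 0 < k := by linarith
  -- P is large
  have hP100 : 100 * k ^ 2 ≤ P := by
    have h1 : L ^ (-((a - 2) / 2)) * L ^ ((a - 2) / 2) = 1 := by
      rw [← Real.rpow_add hL0, neg_add_cancel, Real.rpow_zero]
    have h2 : 0 < L ^ ((a - 2) / 2) := by positivity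
    have hk2 : 0 ≤ k ^ 2 := sq_nonneg k
    calc 100 * k ^ 2 ≤ L ^ ((a - 2) / 2) * k ^ 2 := by gcongr
      _ ≤ L ^ ((a - 2) / 2) * (L ^ (-((a - 2) / 2)) * P) := by gcongr
      _ = (L ^ (-((a - 2) / 2)) * L ^ ((a - 2) / 2)) * P := by ring
      _ = P := by rw [h1, one_mul]
  refine ⟨hk3', hP100, fun d hd hd2 m hm => ?_⟩
  -- y
  have hy1 : L ^ a / 4 - 1 < (yA a X : ℝ) := by
    have := Nat.lt_floor_add_one (L ^ a / 4)
    unfold yA
    rw [← hL]
    linarith
  have hy2 : (yA a X : ℝ) ≤ L ^ a / 4 := by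
    unfold yA
    rw [← hL]
    exact Nat.floor_le (by positivity)
  have hy5 : L ^ a / 5 ≤ (yA a X : ℝ) := by linarith
  obtain ⟨y, hyd⟩ : ∃ y : ℝ, y = (yA a X : ℝ) := ⟨_, rfl⟩
  rw [← hyd] at hy1 hy2 hy5 hP1
  have hy4 : 1 < y := by linarith
  have hly : 0 < Real.log y := Real.log_pos hy4
  have hlyL : Real.log y ≤ a * Real.log L := by
    have h1 : Real.log y ≤ Real.log (L ^ a) := by
      apply Real.log_le_log (by linarith)
      linarith
    rwa [Real.log_rpow hL0] at h1
  -- k
  have hkfl : k = (⌊th a * L / Real.log y⌋₊ : ℝ) + 1 := by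
    rw [hk, hyd, hL]
    unfold kA
    push_cast
    rfl
  have hth0 : 0 < th a := by linarith [hth.2.1]
  have hkup : k * Real.log y ≤ L := by
    have h1 : (⌊th a * L / Real.log y⌋₊ : ℝ) ≤ th a * L / Real.log y :=
      Nat.floor_le (by positivity)
    have h2 : k * Real.log y ≤ (th a * L / Real.log y + 1) * Real.log y := by
      rw [hkfl]
      gcongr
    have h3 : (th a * L / Real.log y + 1) * Real.log y = th a * L + Real.log y := by
      field_simp
    rw [h3] at h2
    nlinarith
  have hklow : (3 / 4) * L / (a * Real.log L) ≤ k := by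
    have h1 : th a * L / Real.log y < k := by
      rw [hkfl]
      exact Nat.lt_floor_add_one _
    refine le_trans ?_ h1.le
    apply div_le_div₀ (by positivity) _ hly hlyL
    have := hth.2.1
    nlinarith
  -- P / k
  have hPk : (18 / 100) * L ^ (a - 1) ≤ P / k := by
    have e1 : L ^ a = L ^ (a - 1) * L := by
      conv_rhs => rw [← Real.rpow_one L, ← Real.rpow_mul hL0.le, one_mul]
      rw [← Real.rpow_add hL0]
      congr 1
      ring
    have e2 : (9 / 10) * y ≤ P * Real.log y := by
      rw [div_le_iff₀ hly] at hP1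
      exact hP1
    rw [le_div_iff₀ hk0]
    have h1 : (9 / 10) * (L ^ a / 5) ≤ P * Real.log y := by
      refine le_trans ?_ e2
      gcongr
    -- multiply by k
    have h2 : (9 / 10) * (L ^ (a - 1) * L / 5) * k ≤ P * L := by
      rw [e1] at h1
      calc (9 / 10) * (L ^ (a - 1) * L / 5) * k ≤ P * Real.log y * k := by gcongr
        _ = P * (k * Real.log y) := by ring
        _ ≤ P * L := by
            apply mul_le_mul_of_nonneg_left hkup
            nlinarith
    have h3 : (18 / 100) * L ^ (a - 1) * k * L ≤ P * L := by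
      refine le_trans (le_of_eq ?_) h2
      ring
    exact le_of_mul_le_mul_right h3 hL0
  -- log d
  have hX0 : (0 : ℝ) < X := by
    rcases Nat.eq_zero_or_pos X with h | h
    · rw [h] at hL
      simp at hL
      linarith
    · exact_mod_cast h
  have hdlow : L - 2 ≤ Real.log d := by
    have h1 : Real.log ((X : ℝ) / 4) ≤ Real.log d := Real.log_le_log (by positivity) hd
    rw [Real.log_div (by positivity) (by norm_num)] at h1
    have h4' : Real.log 4 ≤ 2 := by
      rw [show (4 : ℝ) = 2 ^ 2 by norm_num, Real.log_pow]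
      have := Real.log_two_lt_d9
      push_cast
      linarith
    rw [← hL] at h1
    linarith
  have hd0 : 0 < d := by
    have : 0 < (X : ℝ) / 4 := by positivity
    linarith
  have hdup : Real.log d ≤ L + 1 := by
    have h1 : Real.log d ≤ Real.log (2 * X) := Real.log_le_log hd0 hd2
    rw [Real.log_mul (by norm_num) (by positivity), ← hL] at h1
    have := Real.log_two_lt_d9
    linarith
  refine ⟨by linarith, ?_⟩
  obtain ⟨l, hl⟩ : ∃ l, l = Real.log d := ⟨_, rfl⟩
  rw [← hl] at hdlow hdup ⊢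
  have hl1 : l ^ (a - 1) ≤ (11 / 10) * L ^ (a - 1) := by
    refine le_trans ?_ l5
    apply Real.rpow_le_rpow (by linarith) (by linarith) (by linarith)
  have hll : (99 / 100) * Real.log L ≤ Real.log l := by
    have h1 : Real.log (L * (99 / 100)) ≤ Real.log l := by
      apply Real.log_le_log (by positivity)
      linarith
    rw [Real.log_mul hL0.ne' (by norm_num)] at h1
    have h2 : -(2 / 100 : ℝ) ≤ Real.log (99 / 100) := by
      have h3 := Real.one_sub_inv_le_log_of_pos (x := (99 / 100 : ℝ)) (by norm_num)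
      refine le_trans ?_ h3
      norm_num
    have h3 : 2 ≤ Real.log L := by
      have h4 : Real.log 1000 ≤ Real.log L := Real.log_le_log (by norm_num) l1
      have h5 : (2 : ℝ) ≤ Real.log 1000 := by
        rw [Real.le_log_iff_exp_le (by norm_num)]
        have h6 := Real.exp_one_lt_d9
        have h7 : Real.exp 2 = Real.exp 1 * Real.exp 1 := by
          rw [← Real.exp_add]
          norm_num
        rw [h7]
        have := Real.exp_pos 1
        nlinarith
      linarith
    linarith
  have hl2 : l / Real.log l ≤ (11 / 10) * (L / Real.log L) := by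
    have h1 : l / Real.log l ≤ (L + 1) / ((99 / 100) * Real.log L) := by
      apply div_le_div₀ (by linarith) hdup (by positivity) hll
    refine h1.trans ?_
    rw [div_le_iff₀ (by positivity)]
    have e : (11 / 10) * (L / Real.log L) * ((99 / 100) * Real.log L) = (1089 / 1000) * L := by
      field_simp
      norm_num
    rw [e]
    linarith
  obtain ⟨R, hR⟩ : ∃ R, R = L / Real.log L := ⟨_, rfl⟩
  rw [← hR] at hl2
  have hR0 : 0 < R := by rw [hR]; positivity
  have hlm : 0 ≤ Real.log m := Real.log_nonneg hm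
  have hmin : min (Real.log m) (l / Real.log l) ≤ (11 / 10) * min (Real.log m) R := by
    rcases le_total (Real.log m) R with h | h
    · rw [min_eq_left h]
      have := min_le_left (Real.log m) (l / Real.log l)
      linarith
    · rw [min_eq_right h]
      exact (min_le_right _ _).trans hl2
  have hmin0 : 0 ≤ min (Real.log m) R := le_min hlm hR0.le
  have hM : (3 / (2 * a)) * min (Real.log m) R ≤ min (2 * k) (Real.log m) := by
    apply le_min
    · have h1 : (3 / 2) * R / a ≤ 2 * k := by
        have h2 : (3 / 2) * R / a = 2 * ((3 / 4) * L / (a * Real.log L)) := by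
          rw [hR]
          field_simp
          norm_num
        rw [h2]
        linarith
      refine le_trans ?_ h1
      have h3 : (3 / (2 * a)) * min (Real.log m) R ≤ (3 / (2 * a)) * R := by
        apply mul_le_mul_of_nonneg_left (min_le_right _ _)
        have : 0 < a := by linarith
        positivity
      refine h3.trans (le_of_eq ?_)
      field_simp
    · have h3 : 3 / (2 * a) ≤ 1 := by
        rw [div_le_one (by linarith)]
        linarith
      calc (3 / (2 * a)) * min (Real.log m) R ≤ 1 * min (Real.log m) R := by gcongr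
        _ = min (Real.log m) R := one_mul _
        _ ≤ Real.log m := min_le_left _ _
  have ha0 : 0 < a := by linarith
  have hLa : 0 < L ^ (a - 1) := by positivity
  calc l ^ (a - 1) * min (Real.log m) (l / Real.log l) / (50 * a)
      ≤ ((11 / 10) * L ^ (a - 1)) * ((11 / 10) * min (Real.log m) R) / (50 * a) := by
        apply div_le_div_of_nonneg_right _ (by positivity)
        apply mul_le_mul hl1 hmin _ (by positivity)
        apply le_min hlm
        have : 0 < Real.log l := Real.log_pos (by linarith)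
        have : 0 < l := by linarith
        positivity
    _ = (121 / 5000) / a * (L ^ (a - 1) * min (Real.log m) R) := by
        field_simp
        ring
    _ ≤ (18 / 700 * (3 / 2)) / a * (L ^ (a - 1) * min (Real.log m) R) := by
        apply mul_le_mul_of_nonneg_right _ (by positivity)
        apply div_le_div_of_nonneg_right _ ha0.le
        norm_num
    _ = ((18 / 100) * L ^ (a - 1)) * ((3 / (2 * a)) * min (Real.log m) R) / 7 := by
        field_simp
        ring
    _ ≤ (P / k) * min (2 * k) (Real.log m) / 7 := by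
        apply div_le_div_of_nonneg_right _ (by norm_num)
        apply mul_le_mul hPk hM (mul_nonneg (by positivity) hmin0)
        exact div_nonneg (le_trans (by positivity) hP100) hk0.le
    _ = P * min (2 * k) (Real.log m) / (7 * k) := by
        field_simp

end Pool.Agent.X11.RG
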