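import Pool.Agent.Y892.UF.W8
import Pool.Agent.X11.RG.Gen
import Pool.Agent.X11.RG.Bound
import Pool.Agent.X11.RG.Num

/-!
# Every proper subgroup of the class group misses many small prime ideals
-/

set_option autoImplicit false

namespace Pool.Agent.X11.RG

open Finset Filter NumberField Pool.Agent.H38R2.CG Pool.Agent.H38R2.CG2 Pool.Agent.H38R2.CG3
open Pool.Agent.H38R2.CG.FINh Pool.Agent.Y892.UF
open scoped Classical

/-- exceptional discriminants -/
def Bad (a : ℝ) (X D : ℕ) : Prop :=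
  Bd a (1 / 32) X D ∨ MD D (SA a X) (fun _ => 1) < (1 / 2) * NA a X

theorem MLOW_true : P2_MLOW := by
  have h_P2_NB : P2_NB := T2_NB T_NB
  have h_P_KR : P_KR := T_KR
  have h_P_PV : P_PV := T_PV
  have h_P2_WT : P2_WT := T2_WT
  have h_P2_V0 : P2_V0 := T2_V0 h_P2_WT
  have h_P2_V1 : P2_V1 := T2_V1 h_P_PV h_P2_WT
  have h_P2_SZ : P2_SZ := T2_SZ
  have h_P2_COMB : P2_COMB := T2_COMB
  have h_P2_PAIR : P2_PAIR := T2_PAIR
  exact T2_MLOW h_P2_SZ h_P2_NB h_P2_COMB h_P2_PAIR h_P2_WT h_P2_V0 h_P2_V1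

theorem pg_true (a : ℝ) (ha : 2 < a) : PG a (Bad a) := by
  intro C0 hC0 ε hε
  obtain ⟨z0, hz0⟩ := AS0_true a ha (1 / 32) (by norm_num) C0 hC0 (ε / 2) (by positivity)
  obtain ⟨ε', hε'⟩ : ∃ ε' : ℝ, ε' = min (ε / 2) (1 / 2) := ⟨_, rfl⟩
  have hε0 : 0 < ε' := by
    rw [hε']
    exact lt_min (by positivity) (by norm_num)
  have hε1 : ε' ≤ ε / 2 := by
    rw [hε']
    exact min_le_left _ _
  have hε2 : ε' ≤ 1 / 2 := by
    rw [hε']
    exact min_le_right _ _
  refine ⟨z0, fun z hz => ?_⟩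
  obtain ⟨η1, hη1, H⟩ := hz0 z hz
  refine ⟨min η1 1, lt_min hη1 one_pos, fun η hη0 hη r hr => ?_⟩
  obtain ⟨X0, hX0⟩ := H η hη0 (hη.trans (min_le_left _ _)) r hr
  obtain ⟨X1, hX1⟩ := MLOW_true a ha z r hr η hη0 (hη.trans (min_le_right _ _)) C0 hC0 ε' hε0
  refine ⟨max (max X0 X1) 3, fun X hX ρ hρ => ?_⟩
  have hXa : X0 ≤ X := (le_max_left _ _).trans ((le_max_left _ _).trans hX)
  have hXb : X1 ≤ X := (le_max_right _ _).trans ((le_max_left _ _).trans hX)
  have hXc : 3 ≤ X := (le_max_right _ _).trans hX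
  have h1 := hX0 X hXa ρ hρ
  have h2 := hX1 X hXb ρ hρ
  have hXr : (3 : ℝ) ≤ X := by exact_mod_cast hXc
  have hcc : cc a ≤ 1 := by linarith [(cc_bd ha).2]
  have hwD : ∀ D ∈ DD z r X η, 0 ≤ wt ρ D := by
    intro D hD
    simp only [DD, mem_filter, mem_Ioc] at hD
    exact (T2_WT z X (PA a X) (cc a) C0 ρ (by omega) hcc hρ D (by omega)).1
  have hNA : 0 ≤ NA a X := by
    unfold NA CA
    positivity
  have hW : 0 ≤ WW z X η ρ := by
    have hlog : 0 < Real.log X := Real.log_pos (by linarith)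
    have hG : 0 ≤ GG X ρ := le_trans (by positivity) hρ.low
    unfold WW
    positivity
  have hsub : (FD z r X η).filter (fun D => Bad a X D) ⊆
      (FD z r X η).filter (fun D => Bd a (1 / 32) X D) ∪
        (DD z r X η).filter (fun D => MD D (SA a X) (fun _ => 1) < (1 - ε') * NA a X) := by
    intro D hD
    rw [mem_filter] at hD
    rw [mem_union, mem_filter, mem_filter]
    rcases hD.2 with h | h
    · exact Or.inl ⟨hD.1, h⟩
    · refine Or.inr ⟨?_, ?_⟩
      · unfold FD at hD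
        exact (mem_filter.1 hD.1).1
      · refine lt_of_lt_of_le h ?_
        apply mul_le_mul_of_nonneg_right _ hNA
        linarith
  have hnn : ∀ D ∈ (FD z r X η).filter (fun D => Bd a (1 / 32) X D) ∪
        (DD z r X η).filter (fun D => MD D (SA a X) (fun _ => 1) < (1 - ε') * NA a X),
      0 ≤ wt ρ D := by
    intro D hD
    rw [mem_union, mem_filter, mem_filter] at hD
    rcases hD with h | h
    · unfold FD at h
      exact hwD D (mem_filter.1 h.1).1
    · exact hwD D h.1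
  have h3 : ∑ D ∈ (FD z r X η).filter (fun D => Bad a X D), wt ρ D ≤
      ∑ D ∈ (FD z r X η).filter (fun D => Bd a (1 / 32) X D), wt ρ D +
        ∑ D ∈ (DD z r X η).filter (fun D => MD D (SA a X) (fun _ => 1) < (1 - ε') * NA a X),
          wt ρ D := by
    refine (sum_le_sum_of_subset_of_nonneg hsub fun D hD _ => hnn D hD).trans ?_
    rw [← sum_union_inter]
    have : 0 ≤ ∑ D ∈ (FD z r X η).filter (fun D => Bd a (1 / 32) X D) ∩
        (DD z r X η).filter (fun D => MD D (SA a X) (fun _ => 1) < (1 - ε') * NA a X),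
          wt ρ D := by
      apply sum_nonneg
      intro D hD
      rw [mem_inter] at hD
      exact hnn D (mem_union.2 (Or.inl hD.1))
    linarith
  have h4 : ε' * WW z X η ρ ≤ ε / 2 * WW z X η ρ := mul_le_mul_of_nonneg_right hε1 hW
  linarith

/-- the number of prime ideals of norm a prime number at most `B` with class outside of `H` -/
noncomputable def nOut (K : Type) [Field K] [NumberField K] (B : ℝ)
    (H : Subgroup (ClassGroup (𝓞 K))) : ℕ :=
  Nat.card {Q : nonZeroDivisors (Ideal (𝓞 K)) //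
    (Ideal.absNorm (Q : Ideal (𝓞 K))).Prime ∧ (Ideal.absNorm (Q : Ideal (𝓞 K)) : ℝ) ≤ B ∧
    ClassGroup.mk0 Q ∉ H}

/-- the conclusion, for the radicand `d` -/
def Rob (a : ℝ) (d : ℕ) : Prop :=
  2 ≤ Real.log d ∧
  ∀ (K : Type) [Field K] [NumberField K], Module.finrank ℚ K = 2 →
    (∃ x : K, x ^ 2 = (d : K)) → ∀ H : Subgroup (ClassGroup (𝓞 K)),
      (Real.log d) ^ (a - 1) * min (Real.log H.index) (Real.log d / Real.log (Real.log d)) /
        (50 * a) ≤ nOut K ((Real.log d) ^ a) H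

theorem one_field {a : ℝ} {X : ℕ} {D : ℕ} (hD : IsFund D) (K : Type) [Field K] [NumberField K]
    (h2 : Module.finrank ℚ K = 2) (hK : NumberField.discr K = (D : ℤ)) (hy : 2 ≤ yA a X)
    (hk : 3 ≤ kA a X) (hP : 100 * (kA a X : ℝ) ^ 2 ≤ (PP (yA a X)).card) (hB : ¬ Bad a X D)
    {B : ℝ} (hyB : 2 * (yA a X : ℝ) ≤ B) (H : Subgroup (ClassGroup (𝓞 K))) (hH : 2 ≤ H.index) :
    (PP (yA a X)).card * min (2 * (kA a X : ℝ)) (Real.log H.index) / (7 * kA a X) ≤
      nOut K B H := by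
  have hN1 : P_N1 := T_N1 (T_SPL T_N0)
  have hPP : ∀ p ∈ PP (yA a X), p.Prime ∧ p ≠ 2 := by
    intro p hp
    simp only [PP, mem_filter, mem_Ioc] at hp
    exact ⟨hp.2, by omega⟩
  unfold Bad at hB
  push Not at hB
  obtain ⟨hB1, hB2⟩ := hB
  have hEq : Equi K (yA a X) (kA a X) (1 / 32) := by
    by_contra hne
    exact hB1 (bd_of_not_equi T_N0 hN1 N3_true N4_true T_KF (T_N5b T_KF N4_true) (T_N6 T_KF) a _ X D
      hy hD K h2 hK hne)
  have hsh := share H (yA a X) (kA a X) hEq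
  obtain ⟨w, hw⟩ : ∃ w : ℕ → ℝ, w = fun p => ((UF K p).card : ℝ) := ⟨_, rfl⟩
  obtain ⟨u, hu⟩ : ∃ u : ℕ → ℝ, u = fun p => (NI (H : Set (ClassGroup (𝓞 K))) p : ℝ) := ⟨_, rfl⟩
  have hw0 : ∀ p ∈ PP (yA a X), 0 ≤ w p := by
    intro p _
    rw [hw]
    positivity
  have hu0 : ∀ p ∈ PP (yA a X), 0 ≤ u p ∧ u p ≤ 2 := by
    intro p hp
    have h1 : NI (H : Set (ClassGroup (𝓞 K))) p ≤ (UF K p).card := by
      have := NI_add (H : Set (ClassGroup (𝓞 K))) p
      omega
    have h3 := UF_le hN1 hD h2 hK (hPP p hp).1 (hPP p hp).2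
    rw [hu]
    beta_reduce
    refine ⟨by positivity, ?_⟩
    exact_mod_cast h1.trans h3
  have hsP : ∀ s ∈ (PP (yA a X)).powersetCard (kA a X), ∀ p ∈ s, p.Prime ∧ p ≠ 2 :=
    fun s hs p hp => hPP p ((mem_powersetCard.1 hs).1 hp)
  have esw : es (PP (yA a X)) w (kA a X) =
      ∑ s ∈ (PP (yA a X)).powersetCard (kA a X), ((UF K (prodS s)).card : ℝ) := by
    unfold es
    refine sum_congr rfl fun s hs => ?_
    rw [(UF_prod hN1 hD h2 hK s (hsP s hs)).1, hw]
  have esu : es (PP (yA a X)) u (kA a X) ≤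
      ∑ s ∈ (PP (yA a X)).powersetCard (kA a X),
        (NI (H : Set (ClassGroup (𝓞 K))) (prodS s) : ℝ) := by
    unfold es
    refine sum_le_sum fun s hs => ?_
    rw [hu]
    beta_reduce
    have := NI_prod H s (fun p hp => (hsP s hs p hp).1)
    exact_mod_cast this
  have hMD : MD D (SA a X) (fun _ => 1) = es (PP (yA a X)) w (kA a X) := by
    rw [esw]
    unfold MD
    refine sum_congr rfl fun s hs => ?_
    rw [(UF_prod hN1 hD h2 hK s (hsP s hs)).2, one_mul]
  have hidx : (2 : ℝ) ≤ H.index := by exact_mod_cast hH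
  have hkP : kA a X ≤ (PP (yA a X)).card := by
    have h1 : (kA a X : ℝ) ≤ (PP (yA a X)).card := by
      have h3 : (3 : ℝ) ≤ kA a X := by exact_mod_cast hk
      nlinarith
    exact_mod_cast h1
  have hNA : NA a X = ((PP (yA a X)).card.choose (kA a X) : ℝ) := rfl
  have htot := total_ge hw0 hk hkP (by rw [← hMD, ← hNA]; exact hB2)
  have hout : (∑ p ∈ PP (yA a X), w p) - ∑ p ∈ PP (yA a X), u p ≤ nOut K B H := by
    have h3 := out_ge H (PP (yA a X)) (fun p hp => (hPP p hp).1) B (by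
      intro p hp
      simp only [PP, mem_filter, mem_Ioc] at hp
      have : (p : ℝ) ≤ 2 * (yA a X : ℝ) := by exact_mod_cast hp.1.2
      linarith)
    have h4 : (∑ p ∈ PP (yA a X), w p) - ∑ p ∈ PP (yA a X), u p =
        ((∑ p ∈ PP (yA a X), NO (H : Set (ClassGroup (𝓞 K))) p : ℕ) : ℝ) := by
      rw [← sum_sub_distrib]
      push_cast
      refine sum_congr rfl fun p _ => ?_
      rw [hw, hu]
      have := NI_add (H : Set (ClassGroup (𝓞 K))) p
      show ((UF K p).card : ℝ) - (NI (H : Set (ClassGroup (𝓞 K))) p : ℝ) = _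
      rw [← this]
      push_cast
      ring
    rw [h4]
    exact_mod_cast h3
  refine le_trans ?_ hout
  refine out_bound hk hidx htot hP ?_
  intro hU
  have h5 := es_ge hu0 hU (kA a X) le_rfl
  have h6 := es_le hw0 (kA a X)
  have hq0 : 0 ≤ 1 / (H.index : ℝ) + √((1 / 32) / H.index) := by positivity
  rw [← esw] at hsh
  calc (∑ p ∈ PP (yA a X), u p - 2 * (kA a X : ℝ)) ^ (kA a X)
      ≤ ((kA a X).factorial : ℝ) * es (PP (yA a X)) u (kA a X) := h5
    _ ≤ ((kA a X).factorial : ℝ) * ((1 / (H.index : ℝ) + √((1 / 32) / H.index)) *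
          es (PP (yA a X)) w (kA a X)) := by
        gcongr
        exact esu.trans hsh
    _ = (1 / (H.index : ℝ) + √((1 / 32) / H.index)) *
          (((kA a X).factorial : ℝ) * es (PP (yA a X)) w (kA a X)) := by ring
    _ ≤ _ := by gcongr

theorem ex_true (a : ℝ) (ha : 2 < a) : EX (Bad a) (Rob a) := by
  obtain ⟨X1, hX1⟩ := params a ha
  obtain ⟨X2, hX2⟩ := par a ha
  refine ⟨max X1 X2, fun X hX d hd1 hds hg hXD hDX => ?_⟩
  have hfund := isFund_Dof hd1 hds
  refine ⟨hfund, ?_⟩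
  have hd4 : (X : ℝ) / 4 ≤ d := by
    have h1 : X < 4 * d := lt_of_lt_of_le hXD (Dof_le d)
    have h2 : (X : ℝ) < 4 * d := by exact_mod_cast h1
    linarith
  have hd2 : (d : ℝ) ≤ 2 * X := by
    have h1 : d ≤ 2 * X := (le_Dof d).trans hDX
    exact_mod_cast h1
  obtain ⟨hy, -, hy2⟩ := hX1 X ((le_max_left _ _).trans hX) d hd4 hd2
  obtain ⟨hk, hP, hm⟩ := hX2 X ((le_max_right _ _).trans hX)
  by_contra hB
  apply hg
  refine ⟨(hm d hd4 hd2 1 le_rfl).1, ?_⟩
  intro K _ _ hrank hx H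
  have hdisc : NumberField.discr K = ((Dof d : ℕ) : ℤ) := by
    rw [T_N0d K d hd1 hds hrank hx]
    unfold Dof
    split_ifs <;> simp
  have hidx0 : H.index ≠ 0 := Subgroup.FiniteIndex.index_ne_zero
  rcases (by omega : H.index = 1 ∨ 2 ≤ H.index) with h1 | h1
  · have hl : 2 ≤ Real.log d := (hm d hd4 hd2 1 le_rfl).1
    have h3 : min (Real.log (H.index : ℝ)) (Real.log d / Real.log (Real.log d)) ≤ 0 := by
      refine (min_le_left _ _).trans ?_
      rw [h1]
      simp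
    have h4 : 0 ≤ (Real.log d) ^ (a - 1) := Real.rpow_nonneg (by linarith) _
    have h5 : (Real.log d) ^ (a - 1) *
        min (Real.log (H.index : ℝ)) (Real.log d / Real.log (Real.log d)) / (50 * a) ≤ 0 := by
      apply div_nonpos_of_nonpos_of_nonneg
      · exact mul_nonpos_of_nonneg_of_nonpos h4 h3
      · linarith
    exact h5.trans (Nat.cast_nonneg _)
  · have h3 := one_field hfund K hrank hdisc hy2 hk hP hB hy H h1
    refine le_trans ?_ h3
    exact (hm d hd4 hd2 (H.index : ℝ) (by exact_mod_cast (by omega : 1 ≤ H.index))).2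

theorem semi_rob (a : ℝ) (ha : 2 < a) :
    Tendsto (fun X : ℕ => (((Finset.Ioc 0 X).filter (fun D => Semi D ∧ ¬ Rob a D)).card : ℝ) /
      (((Finset.Ioc 0 X).filter Semi).card : ℝ)) atTop (nhds 0) :=
  semi_tendsto (ex_true a ha) BH_true T2_RC (pg_true a ha) ha

theorem two_rob (a : ℝ) (ha : 2 < a) :
    Tendsto (fun X : ℕ => (((Finset.Ioc 0 X).filter (fun D => Two D ∧ ¬ Rob a D)).card : ℝ) /
      (((Finset.Ioc 0 X).filter Two).card : ℝ)) atTop (nhds 0) :=
  two_tendsto (ex_true a ha) BH_true T2_RC (pg_true a ha) ha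

theorem prime_rob (a : ℝ) (ha : 2 < a) :
    Tendsto (fun X : ℕ => (((Finset.Ioc 0 X).filter (fun D => D.Prime ∧ ¬ Rob a D)).card : ℝ) /
      (((Finset.Ioc 0 X).filter Nat.Prime).card : ℝ)) atTop (nhds 0) :=
  prime_tendsto (ex_true a ha) T_NB BH_true T2_RC (pg_true a ha) ha

end Pool.Agent.X11.RG
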